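import Mathlib

/-!
Bollobas' inequality for pairs of sets of sizes `2` and `b`, with the case of equality. Copied from
the starting file `Pool/Agent/Results/MP_74d9c7_co/SpectralSaturation.lean`.
-/

set_option autoImplicit false

namespace Pool.Agent.H565.BolPairs

open Finset

section Bollobas

noncomputable def wt (b : ℕ) : ℚ := 2 / (((b : ℚ) + 1) * ((b : ℚ) + 2))

lemma wt_pos (b : ℕ) : 0 < wt b := by
  unfold wt; positivity

lemma wt_zero : wt 0 = 1 := by unfold wt; norm_num

lemma wt_one : wt 1 = 1 / 3 := by unfold wt; norm_num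

lemma wt_rec (b : ℕ) (d : ℚ) :
    ((b : ℚ) + 1) * wt b + (d - 2 - ((b : ℚ) + 1)) * wt (b + 1) = d * wt (b + 1) := by
  unfold wt
  push_cast
  have h1 : ((b : ℚ) + 1) ≠ 0 := by positivity
  have h2 : ((b : ℚ) + 2) ≠ 0 := by positivity
  have h3 : ((b : ℚ) + 1 + 1) ≠ 0 := by positivity
  have h4 : ((b : ℚ) + 1 + 2) ≠ 0 := by positivity
  field_simp
  ring

variable {V : Type*} [DecidableEq V]

/-- A cross-intersecting system of pairs on the ground set `N`. -/
def PairSystem (N : Finset V) (J : Finset (Finset V)) (B : Finset V → Finset V) : Prop :=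
  (∀ A ∈ J, A ⊆ N ∧ A.card = 2 ∧ B A ⊆ N ∧ Disjoint A (B A)) ∧
  (∀ A ∈ J, ∀ A' ∈ J, A ≠ A' → ¬ Disjoint A (B A'))

lemma PairSystem.erase {N : Finset V} {J : Finset (Finset V)} {B : Finset V → Finset V}
    (h : PairSystem N J B) (v : V) :
    PairSystem (N.erase v) (J.filter (fun A => v ∉ A)) (fun A => (B A).erase v) := by
  refine ⟨?_, ?_⟩
  · intro A hA
    rw [Finset.mem_filter] at hA
    obtain ⟨h1, h2, h3, h4⟩ := h.1 A hA.1
    refine ⟨?_, h2, Finset.erase_subset_erase _ h3, ?_⟩
    · intro x hx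
      exact Finset.mem_erase.mpr ⟨fun hxv => hA.2 (hxv ▸ hx), h1 hx⟩
    · exact Finset.disjoint_of_subset_right (Finset.erase_subset _ _) h4
  · intro A hA A' hA' hne hd
    rw [Finset.mem_filter] at hA hA'
    apply h.2 A hA.1 A' hA'.1 hne
    rw [Finset.disjoint_left] at hd ⊢
    intro x hx hxB
    exact hd hx (Finset.mem_erase.mpr ⟨fun hxv => hA.2 (hxv ▸ hx), hxB⟩)

/-- The contribution of one pair, summed over the deleted element. -/
lemma sum_erase {N A C : Finset V} (hA : A ⊆ N) (h2 : A.card = 2) (hC : C ⊆ N)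
    (hd : Disjoint A C) (hne : C.Nonempty) :
    ∑ v ∈ N.filter (fun v => v ∉ A), wt (C.erase v).card = (N.card : ℚ) * wt C.card := by
  obtain ⟨b, hb⟩ : ∃ b, C.card = b + 1 := ⟨C.card - 1, by have := hne.card_pos; omega⟩
  have hsplit : N.filter (fun v => v ∉ A) = C ∪ (N \ (A ∪ C)) := by
    ext v
    simp only [Finset.mem_filter, Finset.mem_union, Finset.mem_sdiff]
    constructor
    · rintro ⟨h1, h3⟩
      by_cases hv : v ∈ C
      · exact Or.inl hv
      · exact Or.inr ⟨h1, by tauto⟩
    · rintro (h1 | ⟨h1, h3⟩)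
      · exact ⟨hC h1, fun hvA => (Finset.disjoint_left.mp hd) hvA h1⟩
      · exact ⟨h1, by tauto⟩
  have hdis : Disjoint C (N \ (A ∪ C)) := by
    rw [Finset.disjoint_left]
    intro x hx hx2
    rw [Finset.mem_sdiff, Finset.mem_union] at hx2
    exact hx2.2 (Or.inr hx)
  rw [hsplit, Finset.sum_union hdis]
  have h3 : ∑ v ∈ C, wt (C.erase v).card = ((b : ℚ) + 1) * wt b := by
    have : ∀ v ∈ C, wt (C.erase v).card = wt b := by
      intro v hv
      rw [Finset.card_erase_of_mem hv, hb]; rfl
    rw [Finset.sum_congr rfl this, Finset.sum_const, hb]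
    simp
  have hcard : (N \ (A ∪ C)).card + (2 + (b + 1)) = N.card := by
    rw [Finset.card_sdiff_of_subset (Finset.union_subset hA hC), Finset.card_union_of_disjoint hd,
      h2, hb]
    have : (A ∪ C).card ≤ N.card := Finset.card_le_card (Finset.union_subset hA hC)
    rw [Finset.card_union_of_disjoint hd, h2, hb] at this
    omega
  have h4 : ∑ v ∈ N \ (A ∪ C), wt (C.erase v).card
      = ((N.card : ℚ) - 2 - ((b : ℚ) + 1)) * wt (b + 1) := by
    have : ∀ v ∈ N \ (A ∪ C), wt (C.erase v).card = wt (b + 1) := by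
      intro v hv
      rw [Finset.mem_sdiff, Finset.mem_union] at hv
      rw [Finset.erase_eq_of_notMem (fun h => hv.2 (Or.inr h)), hb]
    rw [Finset.sum_congr rfl this, Finset.sum_const]
    have hc : ((N \ (A ∪ C)).card : ℚ) = (N.card : ℚ) - 2 - ((b : ℚ) + 1) := by
      rw [← hcard]; push_cast; ring
    rw [nsmul_eq_mul, hc]
  rw [h3, h4, hb]
  exact wt_rec b _

lemma total_erase {N : Finset V} {J : Finset (Finset V)} {B : Finset V → Finset V}
    (h : PairSystem N J B) (hne : ∀ A ∈ J, (B A).Nonempty) :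
    ∑ v ∈ N, ∑ A ∈ J.filter (fun A => v ∉ A), wt ((B A).erase v).card
      = (N.card : ℚ) * ∑ A ∈ J, wt (B A).card := by
  rw [Finset.mul_sum]
  have h1 : ∀ v ∈ N, ∑ A ∈ J.filter (fun A => v ∉ A), wt ((B A).erase v).card
      = ∑ A ∈ J, if v ∉ A then wt ((B A).erase v).card else 0 := by
    intro v _
    rw [Finset.sum_filter]
  rw [Finset.sum_congr rfl h1, Finset.sum_comm]
  refine Finset.sum_congr rfl (fun A hA => ?_)
  obtain ⟨g1, g2, g3, g4⟩ := h.1 A hA
  rw [← sum_erase g1 g2 g3 g4 (hne A hA), Finset.sum_filter]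

lemma single_of_empty {N : Finset V} {J : Finset (Finset V)} {B : Finset V → Finset V}
    (h : PairSystem N J B) {A : Finset V} (hA : A ∈ J) (h0 : B A = ∅) : J = {A} := by
  ext A'
  rw [Finset.mem_singleton]
  constructor
  · intro hA'
    by_contra hne
    apply h.2 A' hA' A hA hne
    rw [h0]
    exact Finset.disjoint_empty_right _
  · rintro rfl; exact hA

/-- Bollobás' inequality for pairs. -/
theorem bollobas : ∀ (d : ℕ) (N : Finset V) (J : Finset (Finset V)) (B : Finset V → Finset V),
    N.card = d → PairSystem N J B → ∑ A ∈ J, wt (B A).card ≤ 1 := by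
  intro d
  induction d with
  | zero =>
    intro N J B hN h
    have : J = ∅ := by
      rw [Finset.eq_empty_iff_forall_notMem]
      intro A hA
      obtain ⟨g1, g2, _⟩ := h.1 A hA
      have := Finset.card_le_card g1
      omega
    rw [this]; simp
  | succ d ih =>
    intro N J B hN h
    by_cases h0 : ∃ A ∈ J, B A = ∅
    · obtain ⟨A, hA, hB⟩ := h0
      rw [single_of_empty h hA hB, Finset.sum_singleton, hB, Finset.card_empty, wt_zero]
    · push Not at h0
      have hne : ∀ A ∈ J, (B A).Nonempty := h0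
      have ht := total_erase h hne
      have hle : ∑ v ∈ N, ∑ A ∈ J.filter (fun A => v ∉ A), wt ((B A).erase v).card ≤
          ∑ v ∈ N, (1 : ℚ) := by
        refine Finset.sum_le_sum (fun v hv => ?_)
        exact ih (N.erase v) _ _ (by rw [Finset.card_erase_of_mem hv, hN]; rfl) (h.erase v)
      rw [ht] at hle
      simp only [Finset.sum_const, nsmul_eq_mul, mul_one] at hle
      have hpos : (0 : ℚ) < (N.card : ℚ) := by rw [hN]; positivity
      exact le_of_mul_le_mul_left (by linarith) hpos

lemma eq_erase {N : Finset V} {J : Finset (Finset V)} {B : Finset V → Finset V}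
    (h : PairSystem N J B) (heq : ∑ A ∈ J, wt (B A).card = 1) (hne : ∀ A ∈ J, (B A).Nonempty)
    {v : V} (hv : v ∈ N) :
    ∑ A ∈ J.filter (fun A => v ∉ A), wt ((B A).erase v).card = 1 := by
  have ht := total_erase h hne
  rw [heq, mul_one] at ht
  have hle : ∀ v ∈ N, ∑ A ∈ J.filter (fun A => v ∉ A), wt ((B A).erase v).card ≤ 1 :=
    fun v hv => bollobas (N.erase v).card (N.erase v) _ _ rfl (h.erase v)
  have hsum : ∑ v ∈ N, ∑ A ∈ J.filter (fun A => v ∉ A), wt ((B A).erase v).card
      = ∑ v ∈ N, (1 : ℚ) := by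
    rw [ht]; simp
  exact (Finset.sum_eq_sum_iff_of_le hle).mp hsum v hv

lemma eq_inherit : ∀ (k : ℕ) (N : Finset V) (J : Finset (Finset V)) (B : Finset V → Finset V),
    PairSystem N J B → ∑ A ∈ J, wt (B A).card = 1 →
    ∀ M ⊆ N, (N \ M).card = k → ∀ A0 ∈ J, A0 ⊆ M → (B A0 ∩ M).Nonempty →
    ∑ A ∈ J.filter (fun A => A ⊆ M), wt (B A ∩ M).card = 1 := by
  intro k
  induction k with
  | zero =>
    intro N J B h heq M hM hk A0 hA0 hA0M hne
    have hNM : N = M := by
      apply Finset.Subset.antisymm _ hM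
      rw [Finset.card_eq_zero, Finset.sdiff_eq_empty_iff_subset] at hk
      exact hk
    subst hNM
    have h1 : J.filter (fun A => A ⊆ N) = J := by
      rw [Finset.filter_true_of_mem]
      intro A hA; exact (h.1 A hA).1
    rw [h1, ← heq]
    refine Finset.sum_congr rfl (fun A hA => ?_)
    rw [Finset.inter_eq_left.mpr (h.1 A hA).2.2.1]
  | succ k ih =>
    intro N J B h heq M hM hk A0 hA0 hA0M hne
    obtain ⟨v, hv⟩ : (N \ M).Nonempty := by
      rw [← Finset.card_pos]; omega
    rw [Finset.mem_sdiff] at hv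
    have hBne : ∀ A ∈ J, (B A).Nonempty := by
      intro A hA
      rw [Finset.nonempty_iff_ne_empty]
      intro h0
      have hJ := single_of_empty h hA h0
      rw [hJ, Finset.mem_singleton] at hA0
      rw [hA0, h0] at hne
      simp at hne
    have heq' := eq_erase h heq hBne hv.1
    have hMv : M ⊆ N.erase v := by
      intro x hx
      exact Finset.mem_erase.mpr ⟨fun hxv => hv.2 (hxv ▸ hx), hM hx⟩
    have hA0' : A0 ∈ J.filter (fun A => v ∉ A) :=
      Finset.mem_filter.mpr ⟨hA0, fun hvA => hv.2 (hA0M hvA)⟩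
    have hinter : ∀ A : Finset V, (B A).erase v ∩ M = B A ∩ M := by
      intro A
      ext x
      simp only [Finset.mem_inter, Finset.mem_erase]
      constructor
      · rintro ⟨⟨_, h2⟩, h3⟩; exact ⟨h2, h3⟩
      · rintro ⟨h2, h3⟩; exact ⟨⟨fun hxv => hv.2 (hxv ▸ h3), h2⟩, h3⟩
    have hcard : (N.erase v \ M).card = k := by
      rw [Finset.erase_sdiff_comm, Finset.card_erase_of_mem (Finset.mem_sdiff.mpr hv), hk]
      rfl
    have := ih (N.erase v) _ _ (h.erase v) heq' M hMv hcard A0 hA0' hA0M (by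
      show ((B A0).erase v ∩ M).Nonempty
      rw [hinter]; exact hne)
    simp only [hinter] at this
    rw [← this]
    refine Finset.sum_congr ?_ (fun _ _ => rfl)
    ext A
    simp only [Finset.mem_filter]
    constructor
    · rintro ⟨h1, h2⟩; exact ⟨⟨h1, fun hvA => hv.2 (h2 hvA)⟩, h2⟩
    · rintro ⟨⟨h1, _⟩, h2⟩; exact ⟨h1, h2⟩

/-- In the equality case the family is closed under exchanging an element. -/
lemma eq_exchange {N : Finset V} {J : Finset (Finset V)} {B : Finset V → Finset V}
    (h : PairSystem N J B) (heq : ∑ A ∈ J, wt (B A).card = 1) {p q s : V} (hpq : p ≠ q)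
    (hA : ({p, q} : Finset V) ∈ J) (hs : s ∈ B {p, q}) : ({p, s} : Finset V) ∈ J := by
  by_contra hcon
  obtain ⟨g1, g2, g3, g4⟩ := h.1 _ hA
  have hps : p ≠ s := by
    rintro rfl; exact (Finset.disjoint_left.mp g4) (by simp) hs
  have hqs : q ≠ s := by
    rintro rfl; exact (Finset.disjoint_left.mp g4) (by simp) hs
  set M : Finset V := {p, q, s} with hM
  have hpM : p ∈ M := by simp [hM]
  have hqM : q ∈ M := by simp [hM]
  have hsM : s ∈ M := by simp [hM]
  have hMN : M ⊆ N := by
    intro x hx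
    simp only [hM, Finset.mem_insert, Finset.mem_singleton] at hx
    rcases hx with rfl | rfl | rfl
    · exact g1 (by simp)
    · exact g1 (by simp)
    · exact g3 hs
  have hAM : ({p, q} : Finset V) ⊆ M := by
    intro x hx
    simp only [Finset.mem_insert, Finset.mem_singleton] at hx
    rcases hx with rfl | rfl
    · exact hpM
    · exact hqM
  have hmain := eq_inherit _ N J B h heq M hMN rfl _ hA hAM
    ⟨s, Finset.mem_inter.mpr ⟨hs, hsM⟩⟩
  -- the pairs inside `M` that can occur
  have hsub : J.filter (fun A => A ⊆ M) ⊆ {{p, q}, {q, s}} := by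
    intro A hAJ
    rw [Finset.mem_filter] at hAJ
    have hc := (h.1 A hAJ.1).2.1
    obtain ⟨x, y, hxy, rfl⟩ := Finset.card_eq_two.mp hc
    have hx : x ∈ M := hAJ.2 (by simp)
    have hy : y ∈ M := hAJ.2 (by simp)
    simp only [hM, Finset.mem_insert, Finset.mem_singleton] at hx hy
    rw [Finset.mem_insert, Finset.mem_singleton]
    rcases hx with rfl | rfl | rfl <;> rcases hy with rfl | rfl | rfl
    · exact absurd rfl hxy
    · exact Or.inl rfl
    · exact absurd hAJ.1 hcon
    · exact Or.inl (Finset.pair_comm _ _)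
    · exact absurd rfl hxy
    · exact Or.inr rfl
    · exact absurd (Finset.pair_comm x y ▸ hAJ.1) hcon
    · exact Or.inr (Finset.pair_comm _ _)
    · exact absurd rfl hxy
  have hbound : ∀ A ∈ J.filter (fun A => A ⊆ M), wt (B A ∩ M).card ≤ 1 / 3 := by
    intro A hAJ
    have hcard : 1 ≤ (B A ∩ M).card := by
      rw [Nat.one_le_iff_ne_zero, ← Nat.pos_iff_ne_zero, Finset.card_pos]
      rcases Finset.mem_insert.mp (hsub hAJ) with h1 | h1
      · rw [h1]; exact ⟨s, Finset.mem_inter.mpr ⟨hs, hsM⟩⟩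
      · rw [Finset.mem_singleton] at h1
        rw [Finset.mem_filter] at hAJ
        have hne : ({p, q} : Finset V) ≠ A := by
          rw [h1]
          intro he
          have : p ∈ ({q, s} : Finset V) := by rw [← he]; simp
          simp only [Finset.mem_insert, Finset.mem_singleton] at this
          rcases this with h2 | h2
          · exact hpq h2
          · exact hps h2
        have hnd := h.2 _ hA A hAJ.1 hne
        rw [Finset.not_disjoint_iff] at hnd
        obtain ⟨x, hx1, hx2⟩ := hnd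
        exact ⟨x, Finset.mem_inter.mpr ⟨hx2, hAM hx1⟩⟩
    obtain ⟨c, hc⟩ : ∃ c, (B A ∩ M).card = c + 1 := ⟨_, (Nat.sub_add_cancel hcard).symm⟩
    rw [hc]
    unfold wt
    push_cast
    rw [div_le_div_iff₀ (by positivity) (by norm_num)]
    have : (0 : ℚ) ≤ c := by positivity
    nlinarith
  have h1 : ∑ A ∈ J.filter (fun A => A ⊆ M), wt (B A ∩ M).card ≤
      ∑ A ∈ J.filter (fun A => A ⊆ M), (1 / 3 : ℚ) := Finset.sum_le_sum hbound
  rw [hmain, Finset.sum_const, nsmul_eq_mul] at h1
  have h2 : (J.filter (fun A => A ⊆ M)).card ≤ 2 :=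
    (Finset.card_le_card hsub).trans Finset.card_le_two
  have h3 : ((J.filter (fun A => A ⊆ M)).card : ℚ) ≤ 2 := by exact_mod_cast h2
  linarith

/-- In the equality case all pairs of `A ∪ B A` belong to the family. -/
lemma eq_all_pairs {N : Finset V} {J : Finset (Finset V)} {B : Finset V → Finset V}
    (h : PairSystem N J B) (heq : ∑ A ∈ J, wt (B A).card = 1) {A : Finset V} (hA : A ∈ J)
    {x y : V} (hxy : x ≠ y) (hx : x ∈ A ∪ B A) (hy : y ∈ A ∪ B A) : ({x, y} : Finset V) ∈ J := by
  obtain ⟨p, q, hpq, rfl⟩ := Finset.card_eq_two.mp (h.1 A hA).2.1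
  have hA' : ({q, p} : Finset V) ∈ J := Finset.pair_comm p q ▸ hA
  have hB' : B {q, p} = B {p, q} := by rw [Finset.pair_comm]
  have hex : ∀ s ∈ B {p, q}, ({p, s} : Finset V) ∈ J := fun s hs => eq_exchange h heq hpq hA hs
  have hex' : ∀ s ∈ B {p, q}, ({q, s} : Finset V) ∈ J := fun s hs =>
    eq_exchange h heq hpq.symm hA' (by rw [hB']; exact hs)
  have hBB : ∀ s ∈ B {p, q}, ∀ t ∈ B {p, q}, s ≠ t → ({s, t} : Finset V) ∈ J := by
    intro s hs t ht hst
    have h1 := hex s hs
    have h2 := hex t ht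
    have hps : p ≠ s := by
      rintro rfl
      exact (Finset.disjoint_left.mp (h.1 _ hA).2.2.2) (by simp) hs
    have hpt : p ≠ t := by
      rintro rfl
      exact (Finset.disjoint_left.mp (h.1 _ hA).2.2.2) (by simp) ht
    have hne : ({p, t} : Finset V) ≠ {p, s} := by
      intro he
      have : t ∈ ({p, s} : Finset V) := by rw [← he]; simp
      simp only [Finset.mem_insert, Finset.mem_singleton] at this
      rcases this with h3 | h3
      · exact hpt h3.symm
      · exact hst h3.symm
    have hnd := h.2 _ h2 _ h1 hne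
    rw [Finset.not_disjoint_iff] at hnd
    obtain ⟨w, hw1, hw2⟩ := hnd
    have hw : w = t := by
      simp only [Finset.mem_insert, Finset.mem_singleton] at hw1
      rcases hw1 with rfl | rfl
      · exact absurd hw2 ((Finset.disjoint_left.mp (h.1 _ h1).2.2.2) (by simp))
      · rfl
    rw [hw] at hw2
    have h1' : ({s, p} : Finset V) ∈ J := Finset.pair_comm p s ▸ h1
    exact eq_exchange h heq hps.symm h1' (by rw [Finset.pair_comm]; exact hw2)
  simp only [Finset.mem_union, Finset.mem_insert, Finset.mem_singleton] at hx hy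
  rcases hx with (rfl | rfl) | hx <;> rcases hy with (rfl | rfl) | hy
  · exact absurd rfl hxy
  · exact hA
  · exact hex y hy
  · exact hA'
  · exact absurd rfl hxy
  · exact hex' y hy
  · exact Finset.pair_comm x y ▸ hex x hx
  · exact Finset.pair_comm x y ▸ hex' x hx
  · exact hBB x hx y hy hxy

end Bollobas

end Pool.Agent.H565.BolPairs
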