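import Mathlib

/-!
# Helly property of subtrees and traces of connected sets in a tree-decomposition
(copied from `Pool.Agent.H279R3.TreeHelly`, helper279)
-/

set_option autoImplicit false

namespace H565TH

open SimpleGraph

/-- A set of vertices is walk-connected. -/
def WConn {α : Type} (T : SimpleGraph α) (S : Set α) : Prop :=
  ∀ i ∈ S, ∀ j ∈ S, ∃ q : T.Walk i j, ∀ x ∈ q.support, x ∈ S

/-- `Below T ρ t x`: every walk from `x` to the root `ρ` goes through `t`. -/
def Below {α : Type} (T : SimpleGraph α) (ρ t x : α) : Prop :=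
  ∀ p : T.Walk x ρ, t ∈ p.support

lemma below_self {α : Type} (T : SimpleGraph α) (ρ t : α) : Below T ρ t t := fun p => by simp

lemma below_dist {α : Type} {T : SimpleGraph α} (hT : T.IsTree) {ρ t x : α}
    (h : Below T ρ t x) (hne : x ≠ t) : T.dist t ρ < T.dist x ρ := by
  classical
  obtain ⟨p, hp⟩ := (hT.connected x ρ).exists_walk_length_eq_dist
  have ht := h p
  have h1 : p.length = (p.takeUntil t ht).length + (p.dropUntil t ht).length := by
    conv_lhs => rw [← p.take_spec ht]
    rw [Walk.length_append]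
  have h2 : T.dist t ρ ≤ (p.dropUntil t ht).length := dist_le _
  have h3 : 0 < (p.takeUntil t ht).length := by
    rw [Nat.pos_iff_ne_zero]
    intro h0
    exact hne (Walk.eq_of_length_eq_zero h0)
  omega

lemma below_cross {α : Type} {T : SimpleGraph α} {ρ t x y : α}
    (h : Below T ρ t x) (hy : ¬ Below T ρ t y) (q : T.Walk x y) : t ∈ q.support := by
  classical
  unfold Below at hy
  push Not at hy
  obtain ⟨p, hp⟩ := hy
  have := h (q.append p)
  rw [Walk.mem_support_append_iff] at this
  exact this.resolve_right hp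

/-- In a tree the point of a walk-connected set closest to the root dominates the set. -/
lemma top_below {α : Type} {T : SimpleGraph α} (hT : T.IsTree) {ρ t : α} {S : Set α}
    (hS : WConn T S) (ht : t ∈ S) (hmin : ∀ x ∈ S, T.dist t ρ ≤ T.dist x ρ) {x : α} (hx : x ∈ S) :
    Below T ρ t x := by
  classical
  intro p
  by_contra hp
  by_cases hxt : x = t
  · subst hxt; exact hp (by simp)
  -- root is not t
  by_cases hρ : t = ρ
  · subst hρ; exact hp (by simp)
  -- the path in S from t to x
  obtain ⟨q, hq⟩ := hS t ht x hx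
  have hq' : ∀ y ∈ q.bypass.support, y ∈ S := fun y hy => hq y (Walk.support_bypass_subset_support q hy)
  have hqp : q.bypass.IsPath := Walk.bypass_isPath q
  -- shortest walk t to ρ
  obtain ⟨s, hs⟩ := (hT.connected t ρ).exists_walk_length_eq_dist
  have hsp : s.IsPath := by
    exact Walk.isPath_of_length_eq_dist s hs
  -- walk from t to ρ via x
  set w : T.Walk t ρ := q.bypass.append p with hw
  have hwb : w.bypass = s := by
    have := (hT.isAcyclic.subsingleton_path _ _).elim ⟨w.bypass, Walk.bypass_isPath w⟩ ⟨s, hsp⟩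
    exact congrArg Subtype.val this
  -- consider second vertex
  cases hqb : q.bypass with
  | nil => exact hxt rfl
  | @cons _ b _ hadj q1 =>
    -- b in S
    have hbS : b ∈ S := hq' b (by rw [hqb]; simp)
    -- the walk q1.append p from b to ρ avoids t
    have hav : t ∉ (q1.append p).support := by
      rw [Walk.mem_support_append_iff]
      rintro (h | h)
      · rw [hqb, Walk.cons_isPath_iff] at hqp
        exact hqp.2 h
      · exact hp h
    -- path t :: bypass (q1.append p)
    have hpath : (Walk.cons hadj (q1.append p).bypass).IsPath := by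
      rw [Walk.cons_isPath_iff]
      refine ⟨Walk.bypass_isPath _, fun h => hav (Walk.support_bypass_subset_support _ h)⟩
    have heq : s = Walk.cons hadj (q1.append p).bypass := by
      have := (hT.isAcyclic.subsingleton_path _ _).elim ⟨s, hsp⟩ ⟨_, hpath⟩
      exact congrArg Subtype.val this
    have hlen : T.dist b ρ ≤ (q1.append p).bypass.length := dist_le _
    have hlen2 : s.length = (q1.append p).bypass.length + 1 := by
      rw [heq, Walk.length_cons]
    have := hmin b hbS
    omega

/-- Helly property: pairwise meeting walk-connected sets indexed by a nonempty finite type have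
a common point. -/
lemma helly {α : Type} {T : SimpleGraph α} (hT : T.IsTree) {κ : Type} [Finite κ] [Nonempty κ]
    (F : κ → Set α) (hc : ∀ a, WConn T (F a)) (hm : ∀ a b, (F a ∩ F b).Nonempty) :
    ∃ x, ∀ a, x ∈ F a := by
  classical
  obtain ⟨ρ⟩ := hT.connected.nonempty
  -- tops
  have htop : ∀ a, ∃ t ∈ F a, ∀ x ∈ F a, T.dist t ρ ≤ T.dist x ρ := by
    intro a
    obtain ⟨y, hy⟩ := hm a a
    have hy : y ∈ F a := hy.1
    have hex : ∃ n, ∃ x ∈ F a, T.dist x ρ = n := ⟨_, y, hy, rfl⟩
    obtain ⟨t, ht, htn⟩ := Nat.find_spec hex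
    refine ⟨t, ht, fun x hx => ?_⟩
    rw [htn]
    exact Nat.find_min' hex ⟨x, hx, rfl⟩
  choose t ht hmin using htop
  obtain ⟨a, ha⟩ := Finite.exists_max (fun a => T.dist (t a) ρ)
  refine ⟨t a, fun b => ?_⟩
  obtain ⟨x, hxa, hxb⟩ := hm a b
  have hba : Below T ρ (t a) x := top_below hT (hc a) (ht a) (hmin a) hxa
  by_cases h : Below T ρ (t a) (t b)
  · by_cases he : t b = t a
    · rw [← he]; exact ht b
    · have := below_dist hT h he
      have := ha b
      omega
  · obtain ⟨q, hq⟩ := hc b x hxb (t b) (ht b)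
    exact hq _ (below_cross hba h q)

/-- Traces of connected sets in a tree-decomposition are connected. -/
lemma trace_conn {V : Type} {G : SimpleGraph V} {ι : Type} {T : SimpleGraph ι} {B : ι → Finset V}
    (he : ∀ u v, G.Adj u v → ∃ i, u ∈ B i ∧ v ∈ B i)
    (hv : ∀ v i j, v ∈ B i → v ∈ B j → ∃ q : T.Walk i j, ∀ x ∈ q.support, v ∈ B x)
    {A : Set V} (hA : WConn G A) : WConn T {i | ∃ v ∈ A, v ∈ B i} := by
  rintro i ⟨v, hvA, hvi⟩ j ⟨w, hwA, hwj⟩
  obtain ⟨p, hp⟩ := hA v hvA w hwA
  clear hvA hwA
  induction p generalizing i with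
  | nil =>
    rename_i u
    obtain ⟨q, hq⟩ := hv u i j hvi hwj
    exact ⟨q, fun x hx => ⟨u, hp u (by simp), hq x hx⟩⟩
  | @cons a b c hab p ih =>
    obtain ⟨l, hal, hbl⟩ := he _ _ hab
    obtain ⟨q, hq⟩ := hv a i l hvi hal
    obtain ⟨q', hq'⟩ := ih l hbl hwj (fun x hx => hp x (by simp [hx]))
    refine ⟨q.append q', fun x hx => ?_⟩
    rw [Walk.mem_support_append_iff] at hx
    rcases hx with hx | hx
    · exact ⟨a, hp a (by simp), hq x hx⟩
    · exact hq' x hx

end H565TH
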